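import Mathlib

open Filter Topology Set
open scoped Pointwise

namespace Pool.Agent.Results.MP_a85856_gt.CircumradiusFails

/-- The `ℓ_p` norm on `ℝⁿ`. -/
noncomputable def pnorm {n : ℕ} (p : ℝ) (x : Fin n → ℝ) : ℝ := (∑ i, |x i| ^ p) ^ (1 / p)

/-- The unit ball of the `ℓ_p` norm. -/
def pball (n : ℕ) (p : ℝ) : Set (Fin n → ℝ) := {x | pnorm p x ≤ 1}

/-- The circumradius `R(K, C)` of `K` with respect to `C`. -/
noncomputable def circumradius {n : ℕ} (K C : Set (Fin n → ℝ)) : ℝ :=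
  sInf {lam : ℝ | 0 ≤ lam ∧ ∃ t : Fin n → ℝ, K ⊆ (fun z => t + lam • z) '' C}

/-- A convex body: a nonempty compact convex set. -/
def IsConvexBody {n : ℕ} (K : Set (Fin n → ℝ)) : Prop := K.Nonempty ∧ IsCompact K ∧ Convex ℝ K

section general

variable {n : ℕ} {p : ℝ}

lemma sum_le_of_mem (hp : 0 < p) {lam : ℝ} (hlam : 0 ≤ lam) {t x : Fin n → ℝ}
    (hx : x ∈ (fun z => t + lam • z) '' pball n p) : ∑ i, |x i - t i| ^ p ≤ lam ^ p := by
  obtain ⟨z, hz, rfl⟩ := hx
  have hz' : (∑ i, |z i| ^ p) ^ (1 / p) ≤ 1 := hz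
  have h0 : 0 ≤ ∑ i, |z i| ^ p := Finset.sum_nonneg fun i _ => Real.rpow_nonneg (abs_nonneg _) _
  have h1 : ∑ i, |z i| ^ p ≤ 1 := by
    by_contra hcon
    have := Real.one_lt_rpow (not_le.1 hcon) (show 0 < 1 / p by positivity)
    linarith
  calc ∑ i, |(t + lam • z) i - t i| ^ p = ∑ i, lam ^ p * |z i| ^ p := by
        refine Finset.sum_congr rfl fun i _ => ?_
        rw [← Real.mul_rpow hlam (abs_nonneg _)]
        simp [abs_mul, abs_of_nonneg hlam]
    _ = lam ^ p * ∑ i, |z i| ^ p := by rw [Finset.mul_sum]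
    _ ≤ lam ^ p * 1 := mul_le_mul_of_nonneg_left h1 (Real.rpow_nonneg hlam _)
    _ = lam ^ p := mul_one _

lemma mem_of_sum_le (hp : 0 < p) {lam : ℝ} (hlam : 0 < lam) {t x : Fin n → ℝ}
    (hx : ∑ i, |x i - t i| ^ p ≤ lam ^ p) : x ∈ (fun z => t + lam • z) '' pball n p := by
  refine ⟨lam⁻¹ • (x - t), ?_, ?_⟩
  · show (∑ i, |(lam⁻¹ • (x - t)) i| ^ p) ^ (1 / p) ≤ 1
    have h0 : 0 ≤ ∑ i, |(lam⁻¹ • (x - t)) i| ^ p :=
      Finset.sum_nonneg fun i _ => Real.rpow_nonneg (abs_nonneg _) _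
    refine Real.rpow_le_one h0 ?_ (by positivity)
    calc ∑ i, |(lam⁻¹ • (x - t)) i| ^ p = ∑ i, (lam ^ p)⁻¹ * |x i - t i| ^ p := by
          refine Finset.sum_congr rfl fun i _ => ?_
          rw [← Real.inv_rpow hlam.le, ← Real.mul_rpow (inv_nonneg.2 hlam.le) (abs_nonneg _)]
          simp [abs_mul, abs_of_pos hlam]
      _ = (lam ^ p)⁻¹ * ∑ i, |x i - t i| ^ p := by rw [Finset.mul_sum]
      _ ≤ (lam ^ p)⁻¹ * lam ^ p :=
          mul_le_mul_of_nonneg_left hx (inv_nonneg.2 (Real.rpow_nonneg hlam.le _))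
      _ = 1 := inv_mul_cancel₀ (Real.rpow_pos_of_pos hlam _).ne'
  · simp [smul_smul, hlam.ne']

lemma convex_sum_le (hp : 1 ≤ p) (t : Fin n → ℝ) (c : ℝ) :
    Convex ℝ {x : Fin n → ℝ | ∑ i, |x i - t i| ^ p ≤ c} := by
  have hconv : ConvexOn ℝ univ fun s : ℝ => |s| ^ p := by
    refine ⟨convex_univ, fun x _ y _ a b ha hb hab => ?_⟩
    have h1 : |a • x + b • y| ≤ a • |x| + b • |y| := by
      refine (abs_add_le _ _).trans ?_
      simp [abs_mul, abs_of_nonneg ha, abs_of_nonneg hb]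
    have h2 := (convexOn_rpow hp).2 (mem_Ici.2 (abs_nonneg x)) (mem_Ici.2 (abs_nonneg y)) ha hb hab
    exact (Real.rpow_le_rpow (abs_nonneg _) h1 (by linarith)).trans h2
  intro x hx y hy a b ha hb hab
  have hx' : ∑ i, |x i - t i| ^ p ≤ c := hx
  have hy' : ∑ i, |y i - t i| ^ p ≤ c := hy
  show ∑ i, |(a • x + b • y) i - t i| ^ p ≤ c
  calc ∑ i, |(a • x + b • y) i - t i| ^ p
      ≤ ∑ i, (a * |x i - t i| ^ p + b * |y i - t i| ^ p) := by
        refine Finset.sum_le_sum fun i _ => ?_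
        have h := hconv.2 (mem_univ (x i - t i)) (mem_univ (y i - t i)) ha hb hab
        have e : (a • x + b • y) i - t i = a • (x i - t i) + b • (y i - t i) := by
          simp only [Pi.add_apply, Pi.smul_apply, smul_eq_mul]
          linear_combination (t i) * hab
        rw [e]
        simpa using h
    _ = a * ∑ i, |x i - t i| ^ p + b * ∑ i, |y i - t i| ^ p := by
        rw [Finset.sum_add_distrib, Finset.mul_sum, Finset.mul_sum]
    _ ≤ a * c + b * c := add_le_add (mul_le_mul_of_nonneg_left hx' ha)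
        (mul_le_mul_of_nonneg_left hy' hb)
    _ = c := by rw [← add_mul, hab, one_mul]

/-- A lower bound for the circumradius of a set. -/
lemma le_circumradius {K : Set (Fin n → ℝ)} {c lam₀ : ℝ} (t₀ : Fin n → ℝ) (h0 : 0 ≤ lam₀)
    (hK₀ : K ⊆ (fun z => t₀ + lam₀ • z) '' pball n p)
    (h : ∀ lam t, 0 ≤ lam → K ⊆ (fun z => t + lam • z) '' pball n p → c ≤ lam) :
    c ≤ circumradius K (pball n p) :=
  le_csInf ⟨lam₀, h0, t₀, hK₀⟩ fun lam hlam => by
    obtain ⟨h1, t, h2⟩ := hlam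
    exact h lam t h1 h2

lemma circumradius_le {K : Set (Fin n → ℝ)} {lam : ℝ} (t : Fin n → ℝ) (h0 : 0 ≤ lam)
    (hK : K ⊆ (fun z => t + lam • z) '' pball n p) :
    circumradius K (pball n p) ≤ lam :=
  csInf_le ⟨0, fun _ h => h.1⟩ ⟨h0, t, hK⟩

end general

section construction

variable (m : ℕ)

/-- The index of the row of an entry of an `m × m` matrix, written as a vector of length `m * m`. -/
def row (k : Fin (m * m)) : Fin m := (finProdFinEquiv.symm k).1

/-- The index of the column. -/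
def col (k : Fin (m * m)) : Fin m := (finProdFinEquiv.symm k).2

/-- The indicator of row `s`. -/
def X (s : Fin m) (k : Fin (m * m)) : ℝ := if row m k = s then 1 else 0

/-- The indicator of column `s`. -/
def Y (s : Fin m) (k : Fin (m * m)) : ℝ := if col m k = s then 1 else 0

lemma sum_row_col (f : Fin m → Fin m → ℝ) :
    ∑ k : Fin (m * m), f (row m k) (col m k) = ∑ i, ∑ j, f i j := by
  rw [← Fintype.sum_prod_type']
  exact Equiv.sum_comp finProdFinEquiv.symm (fun q : Fin m × Fin m => f q.1 q.2)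

/-- The scalar inequality behind the lower bound. -/
lemma scalar_lower {p r : ℝ} (hp : 1 ≤ p) (hr : 0 ≤ r) {M : ℝ} (hM : 0 ≤ M)
    (hMr : M * r ^ (p - 1) = 1) (σ : ℝ) : 1 - (p - 1) * r ≤ |1 - σ| ^ p + M * |σ| ^ p := by
  have h1 : 1 - p * |σ| ≤ |1 - σ| ^ p := by
    have h2 : 1 - |σ| ≤ |1 - σ| := by
      have := abs_sub_abs_le_abs_sub 1 σ
      rwa [abs_one] at this
    rcases le_total 0 (1 - |σ|) with h | h
    · have h3 : 1 + p * (-|σ|) ≤ (1 + -|σ|) ^ p :=
        one_add_mul_self_le_rpow_one_add (by linarith [abs_nonneg σ]) hp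
      have h4 : (1 + -|σ|) ^ p ≤ |1 - σ| ^ p :=
        Real.rpow_le_rpow (by linarith) (by linarith) (by linarith)
      linarith
    · have h5 : 1 - p * |σ| ≤ 0 := by nlinarith
      exact h5.trans (Real.rpow_nonneg (abs_nonneg _) _)
  -- Young: `|σ|^p ≥ p r^{p-1} |σ| - (p-1) r^p`
  have h6 : p * r ^ (p - 1) * |σ| - (p - 1) * r ^ p ≤ |σ| ^ p := by
    rcases hr.eq_or_lt with h | hrpos
    · rw [← h] at hMr ⊢
      rcases eq_or_ne (p - 1) 0 with h' | h'
      · have : p = 1 := by linarith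
        subst this
        simp
      · rw [Real.zero_rpow h', mul_zero] at hMr
        norm_num at hMr
    · have h7 : 1 + p * (|σ| / r - 1) ≤ (1 + (|σ| / r - 1)) ^ p :=
        one_add_mul_self_le_rpow_one_add (by
          have : 0 ≤ |σ| / r := by positivity
          linarith) hp
      have h8 : (1 + (|σ| / r - 1)) ^ p = |σ| ^ p / r ^ p := by
        rw [← Real.div_rpow (abs_nonneg _) hr]
        congr 1
        ring
      rw [h8, le_div_iff₀ (Real.rpow_pos_of_pos hrpos _)] at h7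
      have h9 : r ^ p = r ^ (p - 1) * r := by
        rw [← Real.rpow_add_one hrpos.ne']
        congr 1
        ring
      calc p * r ^ (p - 1) * |σ| - (p - 1) * r ^ p
          = (1 + p * (|σ| / r - 1)) * r ^ p := by
            rw [h9]
            field_simp
            ring
        _ ≤ |σ| ^ p := h7
  have h10 : M * (p * r ^ (p - 1) * |σ| - (p - 1) * r ^ p) ≤ M * |σ| ^ p :=
    mul_le_mul_of_nonneg_left h6 hM
  have h11 : M * (p * r ^ (p - 1) * |σ| - (p - 1) * r ^ p) = p * |σ| - (p - 1) * r := by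
    rcases hr.eq_or_lt with h | hrpos
    · rw [← h] at hMr ⊢
      rcases eq_or_ne (p - 1) 0 with h' | h'
      · have : p = 1 := by linarith
        subst this
        simp at hMr ⊢
        rw [hMr, one_mul]
      · rw [Real.zero_rpow h', mul_zero] at hMr
        norm_num at hMr
    · have h9 : r ^ p = r ^ (p - 1) * r := by
        rw [← Real.rpow_add_one hrpos.ne']
        congr 1
        ring
      rw [h9]
      linear_combination (p * |σ| - (p - 1) * r) * hMr
  linarith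

/-- The sum over all translates. -/
lemma sum_sum_ind (t : Fin (m * m) → ℝ) {p r : ℝ} (hp : 1 ≤ p) (hr : 0 ≤ r) (hm : 1 ≤ m)
    (hMr : ((m : ℝ) - 1) * r ^ (p - 1) = 1) (g : Fin (m * m) → Fin m) :
    (m : ℝ) * m * (1 - (p - 1) * r)
      ≤ ∑ s : Fin m, ∑ k, |(if g k = s then (1 : ℝ) else 0) - t k| ^ p := by
  rw [Finset.sum_comm]
  have hcard : (m : ℝ) * m * (1 - (p - 1) * r) = ∑ _k : Fin (m * m), (1 - (p - 1) * r) := by
    simp
    ring
  rw [hcard]
  refine Finset.sum_le_sum fun k _ => ?_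
  have hM0 : (0 : ℝ) ≤ (m : ℝ) - 1 := by
    have : (1 : ℝ) ≤ m := by exact_mod_cast hm
    linarith
  refine (scalar_lower hp hr hM0 hMr (t k)).trans (le_of_eq ?_)
  rw [← Finset.add_sum_erase _ _ (Finset.mem_univ (g k))]
  rw [if_pos rfl]
  congr 1
  have : ∀ s ∈ Finset.univ.erase (g k), |(if g k = s then (1 : ℝ) else 0) - t k| ^ p
      = |t k| ^ p := by
    intro s hs
    rw [if_neg (Finset.ne_of_mem_erase hs).symm, zero_sub, abs_neg]
  rw [Finset.sum_congr rfl this, Finset.sum_const, Finset.card_erase_of_mem (Finset.mem_univ _),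
    Finset.card_univ, Fintype.card_fin, nsmul_eq_mul, Nat.cast_sub hm]
  simp

/-- Lower bound for the circumradius of the convex hull of the indicators of the fibres of a map
`g`. -/
lemma circumradius_lower {p r : ℝ} (hp : 1 ≤ p) (hr : 0 ≤ r) (hm : 1 ≤ m)
    (hMr : ((m : ℝ) - 1) * r ^ (p - 1) = 1) (hpos : 0 ≤ 1 - (p - 1) * r)
    (g : Fin (m * m) → Fin m) :
    ((m : ℝ) * (1 - (p - 1) * r)) ^ (1 / p) ≤ circumradius
      (convexHull ℝ (range fun s : Fin m => fun k => if g k = s then (1 : ℝ) else 0))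
      (pball (m * m) p) := by
  have hp0 : 0 < p := by linarith
  have hm0 : (0 : ℝ) < m := by exact_mod_cast hm
  refine le_circumradius (lam₀ := ((m : ℝ) * m) ^ (1 / p)) 0 (by positivity) ?_ ?_
  · have hset : (fun z => (0 : Fin (m * m) → ℝ) + ((m : ℝ) * m) ^ (1 / p) • z) '' pball (m * m) p
        ⊇ {x | ∑ i, |x i - (0 : Fin (m * m) → ℝ) i| ^ p ≤ (m : ℝ) * m} := by
      intro x hx
      refine mem_of_sum_le hp0 (by positivity) ?_
      rw [← Real.rpow_mul (by positivity), one_div, inv_mul_cancel₀ hp0.ne', Real.rpow_one]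
      exact hx
    refine (convexHull_min ?_ (convex_sum_le hp 0 _)).trans hset
    rintro _ ⟨s, rfl⟩
    show ∑ i, |(if g i = s then (1 : ℝ) else 0) - (0 : Fin (m * m) → ℝ) i| ^ p ≤ (m : ℝ) * m
    calc ∑ i, |(if g i = s then (1 : ℝ) else 0) - (0 : Fin (m * m) → ℝ) i| ^ p
        ≤ ∑ _i : Fin (m * m), (1 : ℝ) := by
          refine Finset.sum_le_sum fun i _ => ?_
          split_ifs
          · simp
          · simp [Real.zero_rpow hp0.ne']
      _ = (m : ℝ) * m := by simp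
  · intro lam t hlam hK
    have h1 : ∀ s : Fin m, ∑ k, |(if g k = s then (1 : ℝ) else 0) - t k| ^ p ≤ lam ^ p := by
      intro s
      exact sum_le_of_mem hp0 hlam (hK (subset_convexHull ℝ _ ⟨s, rfl⟩))
    have h2 := sum_sum_ind m t hp hr hm hMr g
    have h3 : ∑ s : Fin m, ∑ k, |(if g k = s then (1 : ℝ) else 0) - t k| ^ p ≤ m * lam ^ p := by
      calc _ ≤ ∑ _s : Fin m, lam ^ p := Finset.sum_le_sum fun s _ => h1 s
        _ = m * lam ^ p := by simp
    have h4 : (m : ℝ) * (1 - (p - 1) * r) ≤ lam ^ p := by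
      have := h2.trans h3
      rw [mul_assoc] at this
      exact le_of_mul_le_mul_left this hm0
    calc ((m : ℝ) * (1 - (p - 1) * r)) ^ (1 / p) ≤ (lam ^ p) ^ (1 / p) :=
          Real.rpow_le_rpow (by positivity) h4 (by positivity)
      _ = lam := by
          rw [← Real.rpow_mul hlam, one_div, mul_inv_cancel₀ hp0.ne', Real.rpow_one]

/-- Upper bound for the circumradius of the sum. -/
lemma circumradius_upper {p τ : ℝ} (hp : 1 ≤ p) (h0 : 0 ≤ τ) (h1 : τ ≤ 1) :
    circumradius (convexHull ℝ (range (X m)) + convexHull ℝ (range (Y m))) (pball (m * m) p)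
      ≤ ((m : ℝ) * m * τ ^ p + 2 * m * (1 - τ) ^ p + 2 ^ p) ^ (1 / p) := by
  have hp0 : 0 < p := by linarith
  have hτp : 0 ≤ τ ^ p := Real.rpow_nonneg h0 _
  have h1τp : 0 ≤ (1 - τ) ^ p := Real.rpow_nonneg (by linarith) _
  have h2p : (0 : ℝ) < 2 ^ p := Real.rpow_pos_of_pos two_pos _
  have hΛ : 0 < (m : ℝ) * m * τ ^ p + 2 * m * (1 - τ) ^ p + 2 ^ p := by positivity
  refine circumradius_le (fun _ => τ) (by positivity) ?_
  have hset : (fun z => (fun _ => τ : Fin (m * m) → ℝ)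
        + ((m : ℝ) * m * τ ^ p + 2 * m * (1 - τ) ^ p + 2 ^ p) ^ (1 / p) • z) '' pball (m * m) p
      ⊇ {x | ∑ i, |x i - (fun _ => τ : Fin (m * m) → ℝ) i| ^ p
        ≤ (m : ℝ) * m * τ ^ p + 2 * m * (1 - τ) ^ p + 2 ^ p} := by
    intro x hx
    refine mem_of_sum_le hp0 (by positivity) ?_
    rw [← Real.rpow_mul hΛ.le, one_div, inv_mul_cancel₀ hp0.ne', Real.rpow_one]
    exact hx
  rw [← convexHull_add]
  refine (convexHull_min ?_ (convex_sum_le hp _ _)).trans hset
  rintro _ ⟨_, ⟨s, rfl⟩, _, ⟨s', rfl⟩, rfl⟩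
  show ∑ k, |(X m s + Y m s') k - τ| ^ p ≤ _
  have e1 : ∑ k, |(X m s + Y m s') k - τ| ^ p
      = ∑ i : Fin m, ∑ j : Fin m,
        |((if i = s then (1 : ℝ) else 0) + if j = s' then (1 : ℝ) else 0) - τ| ^ p := by
    rw [← sum_row_col m fun i j =>
      |((if i = s then (1 : ℝ) else 0) + if j = s' then (1 : ℝ) else 0) - τ| ^ p]
    rfl
  rw [e1]
  have e2 : ∀ i j : Fin m,
      |((if i = s then (1 : ℝ) else 0) + if j = s' then (1 : ℝ) else 0) - τ| ^ p
      ≤ τ ^ p + (if i = s then (1 - τ) ^ p else 0) + (if j = s' then (1 - τ) ^ p else 0)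
        + (if i = s then (if j = s' then 2 ^ p else 0) else 0) := by
    intro i j
    split_ifs
    · have : |(1 : ℝ) + 1 - τ| ≤ 2 := by
        rw [abs_le]
        constructor <;> linarith
      have := Real.rpow_le_rpow (abs_nonneg _) this hp0.le
      linarith
    · have : |(1 : ℝ) + 0 - τ| = 1 - τ := by
        rw [add_zero, abs_of_nonneg (by linarith)]
      rw [this]
      linarith
    · have : |(0 : ℝ) + 1 - τ| = 1 - τ := by
        rw [zero_add, abs_of_nonneg (by linarith)]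
      rw [this]
      linarith
    · have : |(0 : ℝ) + 0 - τ| = τ := by
        rw [add_zero, zero_sub, abs_neg, abs_of_nonneg h0]
      rw [this]
      linarith
  refine (Finset.sum_le_sum fun i _ => Finset.sum_le_sum fun j _ => e2 i j).trans (le_of_eq ?_)
  simp only [Finset.sum_add_distrib, Finset.sum_const, Finset.card_univ, Fintype.card_fin,
    nsmul_eq_mul, Finset.sum_ite_eq', Finset.mem_univ, if_true]
  have e3 : ∑ i : Fin m, ∑ j : Fin m, (if i = s then (if j = s' then (2 : ℝ) ^ p else 0) else 0)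
      = 2 ^ p := by
    rw [Finset.sum_eq_single s]
    · simp
    · intro i _ hi
      simp [hi]
    · simp
  have e4 : ∑ i : Fin m, (m : ℝ) * (if i = s then (1 - τ) ^ p else 0) = m * (1 - τ) ^ p := by
    rw [← Finset.mul_sum]
    simp
  rw [e3, e4]
  ring

end construction

/-- The parameters. -/
lemma exists_params {p : ℝ} (hp : 2 < p) : ∃ (m : ℕ) (τ r : ℝ), 1 ≤ m ∧ 0 ≤ τ ∧ τ ≤ 1 ∧ 0 ≤ r ∧
    ((m : ℝ) - 1) * r ^ (p - 1) = 1 ∧ 0 ≤ 1 - (p - 1) * r ∧
    (m : ℝ) * m * τ ^ p + 2 * m * (1 - τ) ^ p + 2 ^ p < 2 * (m * (1 - (p - 1) * r)) := by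
  have hp1 : 0 < p - 1 := by linarith
  set κ : ℝ := (2 / 3 : ℝ) ^ (1 / (p - 1)) with hκ
  have hκ0 : 0 < κ := Real.rpow_pos_of_pos (by norm_num) _
  have hκ1 : κ < 1 := Real.rpow_lt_one (by norm_num) (by norm_num) (by positivity)
  set ε : ℝ := (p - 1) * (1 - κ) / 4 with hε
  have hε0 : 0 < ε := by
    have : 0 < 1 - κ := by linarith
    positivity
  -- eventually small
  have hev1 : ∀ᶠ τ : ℝ in 𝓝[>] 0, (1 - τ) ^ p ≤ 1 - p * τ + ε * τ := by
    have hd : HasDerivAt (fun τ : ℝ => (1 - τ) ^ p) (-p) 0 := by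
      have h1 : HasDerivAt (fun τ : ℝ => 1 - τ) (-1) 0 := by
        simpa using (hasDerivAt_id (0 : ℝ)).const_sub 1
      have h2 := h1.rpow_const (p := p) (Or.inl (by norm_num))
      refine h2.congr_deriv ?_
      simp
    have h3 := (hasDerivAt_iff_isLittleO.1 hd).def hε0
    have h4 : ∀ᶠ τ : ℝ in 𝓝[>] 0, _ := nhdsWithin_le_nhds h3
    filter_upwards [h4, self_mem_nhdsWithin] with τ h hτ
    have hτ' : 0 < τ := hτ
    simp only [sub_zero, smul_eq_mul, Real.norm_eq_abs, Real.one_rpow] at h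
    rw [abs_of_pos hτ'] at h
    have := (abs_le.1 h).2
    linarith
  have hev2 : ∀ᶠ τ : ℝ in 𝓝[>] 0, 2 ^ (p - 2) * τ ^ (p - 2) < ε := by
    have h1 : Tendsto (fun τ : ℝ => (2 : ℝ) ^ (p - 2) * τ ^ (p - 2)) (𝓝 0)
        (𝓝 ((2 : ℝ) ^ (p - 2) * 0 ^ (p - 2))) :=
      ((Real.continuousAt_rpow_const 0 (p - 2) (Or.inr (by linarith))).tendsto).const_mul _
    rw [Real.zero_rpow (by linarith : p - 2 ≠ 0), mul_zero] at h1
    exact nhdsWithin_le_nhds (h1.eventually (gt_mem_nhds hε0))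
  have hev3 : ∀ᶠ τ : ℝ in 𝓝[>] 0, τ ≤ 1 :=
    nhdsWithin_le_nhds ((eventually_le_nhds zero_lt_one))
  have hev4 : ∀ᶠ τ : ℝ in 𝓝[>] 0, (p - 1) * τ ≤ 1 := by
    have h1 : Tendsto (fun τ : ℝ => (p - 1) * τ) (𝓝 0) (𝓝 ((p - 1) * 0)) :=
      (continuous_const.mul continuous_id).tendsto 0
    rw [mul_zero] at h1
    exact nhdsWithin_le_nhds (h1.eventually (eventually_le_nhds zero_lt_one))
  -- the sequence `τ_m = (2/m)^(1/(p-1))`
  have hseq : Tendsto (fun m : ℕ => ((2 : ℝ) / m) ^ (1 / (p - 1))) atTop (𝓝[>] 0) := by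
    rw [tendsto_nhdsWithin_iff]
    constructor
    · have h1 : Tendsto (fun m : ℕ => (2 : ℝ) / m) atTop (𝓝 0) :=
        tendsto_const_div_atTop_nhds_zero_nat 2
      have h2 := h1.rpow_const (p := 1 / (p - 1)) (Or.inr (by positivity))
      rwa [Real.zero_rpow (by positivity)] at h2
    · filter_upwards [eventually_gt_atTop 0] with m hm
      have : (0 : ℝ) < m := by exact_mod_cast hm
      exact Real.rpow_pos_of_pos (by positivity) _
  obtain ⟨m, ⟨⟨⟨h1, h2⟩, h3⟩, h4⟩, hm⟩ := ((((hseq.eventually hev1).and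
    (hseq.eventually hev2)).and (hseq.eventually hev3)).and (hseq.eventually hev4)).and
    (eventually_ge_atTop 4) |>.exists
  have hm4 : (4 : ℝ) ≤ m := by exact_mod_cast hm
  have hm0 : (0 : ℝ) < m := by linarith
  set τ : ℝ := ((2 : ℝ) / m) ^ (1 / (p - 1)) with hτ
  have hτ0 : 0 < τ := Real.rpow_pos_of_pos (by positivity) _
  set r : ℝ := ((1 : ℝ) / (m - 1)) ^ (1 / (p - 1)) with hr
  have hm1 : (0 : ℝ) < m - 1 := by linarith
  have hr0 : 0 < r := Real.rpow_pos_of_pos (by positivity) _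
  have hrpow : r ^ (p - 1) = 1 / (m - 1) := by
    rw [hr, ← Real.rpow_mul (by positivity), one_div (p - 1), inv_mul_cancel₀ hp1.ne',
      Real.rpow_one]
  have hτpow : τ ^ (p - 1) = 2 / m := by
    rw [hτ, ← Real.rpow_mul (by positivity), one_div (p - 1), inv_mul_cancel₀ hp1.ne',
      Real.rpow_one]
  have hrτ : r ≤ κ * τ := by
    rw [hr, hκ, hτ, ← Real.mul_rpow (by norm_num) (by positivity)]
    refine Real.rpow_le_rpow (by positivity) ?_ (by positivity)
    rw [div_le_iff₀ hm1]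
    have : (2 : ℝ) / 3 * (2 / m) * (m - 1) = 4 / 3 - 4 / (3 * m) := by
      field_simp
      norm_num
    rw [this]
    have : 4 / (3 * (m : ℝ)) ≤ 1 / 3 := by
      rw [div_le_div_iff₀ (by positivity) (by norm_num)]
      linarith
    linarith
  have hrτ' : r ≤ τ := by nlinarith
  refine ⟨m, τ, r, by omega, hτ0.le, h3, hr0.le, ?_, ?_, ?_⟩
  · rw [hrpow]
    field_simp
  · nlinarith
  · have e1 : τ ^ p = 2 / m * τ := by
      rw [← hτpow, ← Real.rpow_add_one hτ0.ne']
      congr 1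
      ring
    have e2 : (m : ℝ) * m * τ ^ p = 2 * m * τ := by
      rw [e1]
      field_simp
    have e3 : (2 : ℝ) ^ p = 2 * m * (2 ^ (p - 2) * τ ^ (p - 2) * τ) := by
      have h5 : τ ^ (p - 2) * τ = 2 / m := by
        rw [← hτpow, ← Real.rpow_add_one hτ0.ne']
        congr 1
        ring
      rw [mul_assoc ((2 : ℝ) ^ (p - 2)), h5]
      have h6 : (2 : ℝ) ^ p = 2 ^ (p - 2) * 4 := by
        rw [show (4 : ℝ) = 2 ^ (2 : ℝ) by norm_num, ← Real.rpow_add two_pos]
        congr 1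
        ring
      rw [h6]
      field_simp
      norm_num
    rw [e2, e3]
    have h7 : 2 ^ (p - 2) * τ ^ (p - 2) * τ < ε * τ := mul_lt_mul_of_pos_right h2 hτ0
    have h8 : τ + (1 - τ) ^ p + 2 ^ (p - 2) * τ ^ (p - 2) * τ < 1 - (p - 1) * r := by
      have h9 : (p - 1) * r ≤ (p - 1) * (κ * τ) := mul_le_mul_of_nonneg_left hrτ hp1.le
      have h10 : ε * τ = (p - 1) * (1 - κ) / 4 * τ := by rw [hε]
      have h11 : 0 < (p - 1) * (1 - κ) * τ := by
        have : 0 < 1 - κ := by linarith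
        positivity
      nlinarith
    have h12 := mul_lt_mul_of_pos_left h8 (show (0 : ℝ) < 2 * m by positivity)
    linarith

lemma isConvexBody_hull {n : ℕ} {ι : Type*} [Finite ι] [Nonempty ι] (f : ι → Fin n → ℝ) :
    IsConvexBody (convexHull ℝ (range f)) :=
  ⟨(range_nonempty f).convexHull, (finite_range f).isCompact_convexHull ℝ, convex_convexHull ℝ _⟩

/-- **The circumradius inequality for Minkowski sums with respect to `ℓ_p` balls fails for every
`p > 2`**, already for two summands. -/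
theorem result (p : ℝ) (hp : 2 < p) :
    ∃ (n : ℕ) (K₁ K₂ : Set (Fin n → ℝ)), IsConvexBody K₁ ∧ IsConvexBody K₂ ∧
      circumradius (K₁ + K₂) (pball n p)
        < pnorm p ![circumradius K₁ (pball n p), circumradius K₂ (pball n p)] := by
  obtain ⟨m, τ, r, hm, hτ0, hτ1, hr0, hMr, hpos, hlt⟩ := exists_params hp
  have hp0 : 0 < p := by linarith
  have hp1 : 1 ≤ p := by linarith
  have : Nonempty (Fin m) := ⟨⟨0, hm⟩⟩
  refine ⟨m * m, convexHull ℝ (range (X m)), convexHull ℝ (range (Y m)), isConvexBody_hull _,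
    isConvexBody_hull _, ?_⟩
  set L : ℝ := (m : ℝ) * (1 - (p - 1) * r) with hL
  have hL0 : 0 ≤ L := by positivity
  have hX : L ^ (1 / p) ≤ circumradius (convexHull ℝ (range (X m))) (pball (m * m) p) :=
    circumradius_lower m hp1 hr0 hm hMr hpos (row m)
  have hY : L ^ (1 / p) ≤ circumradius (convexHull ℝ (range (Y m))) (pball (m * m) p) :=
    circumradius_lower m hp1 hr0 hm hMr hpos (col m)
  have hXY := circumradius_upper m hp1 hτ0 hτ1
  refine lt_of_le_of_lt hXY ?_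
  have hLp : (L ^ (1 / p)) ^ p = L := by
    rw [← Real.rpow_mul hL0, one_div, inv_mul_cancel₀ hp0.ne', Real.rpow_one]
  have h1 : 2 * L ≤ ∑ i : Fin 2, |(![circumradius (convexHull ℝ (range (X m))) (pball (m * m) p),
      circumradius (convexHull ℝ (range (Y m))) (pball (m * m) p)] : Fin 2 → ℝ) i| ^ p := by
    rw [Fin.sum_univ_two]
    simp only [Matrix.cons_val_zero, Matrix.cons_val_one]
    have h0 : 0 ≤ L ^ (1 / p) := Real.rpow_nonneg hL0 _
    have hX2 : L ≤ |circumradius (convexHull ℝ (range (X m))) (pball (m * m) p)| ^ p := by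
      rw [← hLp]
      exact Real.rpow_le_rpow h0 (hX.trans (le_abs_self _)) hp0.le
    have hY2 : L ≤ |circumradius (convexHull ℝ (range (Y m))) (pball (m * m) p)| ^ p := by
      rw [← hLp]
      exact Real.rpow_le_rpow h0 (hY.trans (le_abs_self _)) hp0.le
    linarith
  have hbase : 0 ≤ (m : ℝ) * m * τ ^ p + 2 * m * (1 - τ) ^ p + 2 ^ p := by
    have := Real.rpow_nonneg hτ0 p
    have := Real.rpow_nonneg (show 0 ≤ 1 - τ by linarith) p
    positivity
  exact Real.rpow_lt_rpow hbase (lt_of_lt_of_le hlt h1) (by positivity)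

end Pool.Agent.Results.MP_a85856_gt.CircumradiusFails
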